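import Pool.Agent.C75W.P10.PZ14c.I0
import Pool.Agent.C75W.P10.PZ14c.I1
import Pool.Agent.C75W.P10.PZ14c.I2

/-!
MP_c75db0, Plan W: data of the cell PZ14c (written by cw12, helper51).
-/

set_option autoImplicit false
set_option maxRecDepth 100000
set_option linter.defProp false
noncomputable section
namespace Pool.Agent.C75W.P10.PZ14c

open Pool.Agent.Helper86.C75 (Z)
open Pool.Agent.Helper86.CT (N3)
open Pool.Agent.Helper86.CX (Cx)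
open Pool.Agent.Helper12.NKT (CovD Fm Le Lt Lt1 ck)
open Pool.Agent.Helper17.N9 (Kf)
open Pool.Agent.Helper91.BX (Bx Sb)
open Pool.Agent.Helper62.TVM (C9 C3)
open Pool.Agent.Helper51.FR (LE)
open Pool.Agent.Helper26.SF (Sf)
open Pool.Agent.Helper82.TST (Fr)
open Pool.Agent.Helper21.SW (S9 Mu M4 SE z9)
open Pool.Agent.Helper6.MONO (fB)
open Pool.Agent.Helper6.MONO.W2.TY (r4T)
open Pool.Agent.Helper91.BX (PcG QB)
open Pool.Agent.Helper91.TMK.SW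
open Pool.Agent.Helper21.TC
def ck : ck D = true := by decide +kernel
def ce : ceK MT C = true := by decide +kernel
def le_ok : leA MT C = true := by decide +kernel
def gb : gbT C dn = true := by decide +kernel
def r4 : r4T C.D.p C.B.A0 C.B.ra C.B.S0 C.B.rs = true := by decide +kernel
def ic : Pool.Agent.Helper38.FI.incK C ms = true := by decide +kernel
def se : seK MT G3 (TT Pool.Agent.Helper26.TR.Tr) C E = true := by decide +kernel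
theorem A2 : ItsK MT (Pool.Agent.C75W.M.IM C dn) C (nat_lit 2) (t2_0 ++ ([])) :=
  .app (itS_ok a2_0) (.nil)
theorem A3 : ItsK MT (Pool.Agent.C75W.M.IM C dn) C (nat_lit 3) (t3_0 ++ ([])) :=
  .app (itS_ok a3_0) (.nil)
theorem A5 : ItsK MT (Pool.Agent.C75W.M.IM C dn) C (nat_lit 5) (t5_0 ++ ([])) :=
  .app (itS_ok a5_0) (.nil)
theorem A6 : ItsK MT (Pool.Agent.C75W.M.IM C dn) C (nat_lit 6) (t6_0 ++ (t6_1 ++ ([]))) :=
  .app (itS_ok a6_0) (.app (itS_ok a6_1) (.nil))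
theorem A7 : ItsK MT (Pool.Agent.C75W.M.IM C dn) C (nat_lit 7) (t7_0 ++ (t7_1 ++ ([]))) :=
  .app (itS_ok a7_0) (.app (itS_ok a7_1) (.nil))
theorem A9 : ItsK MT (Pool.Agent.C75W.M.IM C dn) C (nat_lit 9) (t9_0 ++ ([])) :=
  .app (itS_ok a9_0) (.nil)
theorem A10 : ItsK MT (Pool.Agent.C75W.M.IM C dn) C (nat_lit 10) (t10_0 ++ (t10_1 ++ ([]))) :=
  .app (itS_ok a10_0) (.app (itS_ok a10_1) (.nil))
theorem A11 : ItsK MT (Pool.Agent.C75W.M.IM C dn) C (nat_lit 11) (t11_0 ++ (t11_1 ++ ([]))) :=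
  .app (itS_ok a11_0) (.app (itS_ok a11_1) (.nil))
theorem A13 : ItsK MT (Pool.Agent.C75W.M.IM C dn) C (nat_lit 13) (t13_0 ++ ([])) :=
  .app (itS_ok a13_0) (.nil)
theorem A14 : ItsK MT (Pool.Agent.C75W.M.IM C dn) C (nat_lit 14) (t14_0 ++ (t14_1 ++ ([]))) :=
  .app (itS_ok a14_0) (.app (itS_ok a14_1) (.nil))
theorem A15 : ItsK MT (Pool.Agent.C75W.M.IM C dn) C (nat_lit 15) (t15_0 ++ (t15_1 ++ ([]))) :=
  .app (itS_ok a15_0) (.app (itS_ok a15_1) (.nil))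
theorem A17 : ItsK MT (Pool.Agent.C75W.M.IM C dn) C (nat_lit 17) (t17_0 ++ ([])) :=
  .app (itS_ok a17_0) (.nil)
theorem A18 : ItsK MT (Pool.Agent.C75W.M.IM C dn) C (nat_lit 18) (t18_0 ++ (t18_1 ++ ([]))) :=
  .app (itS_ok a18_0) (.app (itS_ok a18_1) (.nil))
theorem A19 : ItsK MT (Pool.Agent.C75W.M.IM C dn) C (nat_lit 19) (t19_0 ++ (t19_1 ++ ([]))) :=
  .app (itS_ok a19_0) (.app (itS_ok a19_1) (.nil))
theorem A20 : ItsK MT (Pool.Agent.C75W.M.IM C dn) C (nat_lit 20) (t20_0 ++ ([])) :=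
  .app (itS_ok a20_0) (.nil)
theorem A34 : ItsK MT (Pool.Agent.C75W.M.IM C dn) C (nat_lit 34) (t34_0 ++ (t34_1 ++ ([]))) :=
  .app (itS_ok a34_0) (.app (itS_ok a34_1) (.nil))
theorem A35 : ItsK MT (Pool.Agent.C75W.M.IM C dn) C (nat_lit 35) (t35_0 ++ (t35_1 ++ ([]))) :=
  .app (itS_ok a35_0) (.app (itS_ok a35_1) (.nil))
theorem B2 : IvsK (Pool.Agent.C75W.M.IM C dn) C (nat_lit 2) (v2_0 ++ ([])) :=
  .app (i1S_ok b2_0) (.nil)
theorem B3 : IvsK (Pool.Agent.C75W.M.IM C dn) C (nat_lit 3) (v3_0 ++ ([])) :=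
  .app (i1S_ok b3_0) (.nil)
theorem B4 : IvsK (Pool.Agent.C75W.M.IM C dn) C (nat_lit 4) (v4_0 ++ ([])) :=
  .app (i1S_ok b4_0) (.nil)
theorem B5 : IvsK (Pool.Agent.C75W.M.IM C dn) C (nat_lit 5) (v5_0 ++ ([])) :=
  .app (i1S_ok b5_0) (.nil)
theorem B6 : IvsK (Pool.Agent.C75W.M.IM C dn) C (nat_lit 6) (v6_0 ++ ([])) :=
  .app (i1S_ok b6_0) (.nil)
theorem B7 : IvsK (Pool.Agent.C75W.M.IM C dn) C (nat_lit 7) (v7_0 ++ ([])) :=
  .app (i1S_ok b7_0) (.nil)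
theorem B8 : IvsK (Pool.Agent.C75W.M.IM C dn) C (nat_lit 8) (v8_0 ++ ([])) :=
  .app (i1S_ok b8_0) (.nil)
theorem B9 : IvsK (Pool.Agent.C75W.M.IM C dn) C (nat_lit 9) (v9_0 ++ ([])) :=
  .app (i1S_ok b9_0) (.nil)
theorem B10 : IvsK (Pool.Agent.C75W.M.IM C dn) C (nat_lit 10) (v10_0 ++ ([])) :=
  .app (i1S_ok b10_0) (.nil)
theorem B11 : IvsK (Pool.Agent.C75W.M.IM C dn) C (nat_lit 11) (v11_0 ++ ([])) :=
  .app (i1S_ok b11_0) (.nil)
theorem B12 : IvsK (Pool.Agent.C75W.M.IM C dn) C (nat_lit 12) (v12_0 ++ ([])) :=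
  .app (i1S_ok b12_0) (.nil)
theorem B13 : IvsK (Pool.Agent.C75W.M.IM C dn) C (nat_lit 13) (v13_0 ++ ([])) :=
  .app (i1S_ok b13_0) (.nil)
theorem B14 : IvsK (Pool.Agent.C75W.M.IM C dn) C (nat_lit 14) (v14_0 ++ ([])) :=
  .app (i1S_ok b14_0) (.nil)
theorem B15 : IvsK (Pool.Agent.C75W.M.IM C dn) C (nat_lit 15) (v15_0 ++ ([])) :=
  .app (i1S_ok b15_0) (.nil)
theorem B16 : IvsK (Pool.Agent.C75W.M.IM C dn) C (nat_lit 16) (v16_0 ++ ([])) :=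
  .app (i1S_ok b16_0) (.nil)
theorem B17 : IvsK (Pool.Agent.C75W.M.IM C dn) C (nat_lit 17) (v17_0 ++ ([])) :=
  .app (i1S_ok b17_0) (.nil)
theorem B18 : IvsK (Pool.Agent.C75W.M.IM C dn) C (nat_lit 18) (v18_0 ++ ([])) :=
  .app (i1S_ok b18_0) (.nil)
theorem B19 : IvsK (Pool.Agent.C75W.M.IM C dn) C (nat_lit 19) (v19_0 ++ ([])) :=
  .app (i1S_ok b19_0) (.nil)
theorem B20 : IvsK (Pool.Agent.C75W.M.IM C dn) C (nat_lit 20) (v20_0 ++ ([])) :=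
  .app (i1S_ok b20_0) (.nil)
theorem B34 : IvsK (Pool.Agent.C75W.M.IM C dn) C (nat_lit 34) (v34_0 ++ ([])) :=
  .app (i1S_ok b34_0) (.nil)
theorem B35 : IvsK (Pool.Agent.C75W.M.IM C dn) C (nat_lit 35) (v35_0 ++ ([])) :=
  .app (i1S_ok b35_0) (.nil)
theorem itA : ItsA MT (Pool.Agent.C75W.M.IM C dn) C it :=
  .cons A2 (.cons A3 (.cons A5 (.cons A6 (.cons A7 (.cons A9 (.cons A10 (.cons A11 (.cons A13 (.cons A14 (.cons A15 (.cons A17 (.cons A18 (.cons A19 (.cons A20 (.cons A34 (.cons A35 (.nil)))))))))))))))))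
theorem ivA : IvsA (Pool.Agent.C75W.M.IM C dn) C i1 :=
  .cons B2 (.cons B3 (.cons B4 (.cons B5 (.cons B6 (.cons B7 (.cons B8 (.cons B9 (.cons B10 (.cons B11 (.cons B12 (.cons B13 (.cons B14 (.cons B15 (.cons B16 (.cons B17 (.cons B18 (.cons B19 (.cons B20 (.cons B34 (.cons B35 (.nil)))))))))))))))))))))
theorem cel : Pool.Agent.C75W.M.CelM C dn ms E := ⟨ck, ce, le_ok, gb, itA, ivA, ic, se⟩
theorem pc (Q : ℕ → ℕ → ℝ → Prop) (m : ℝ) :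
    PcG Q (nat_lit 10) m (nat_lit 1070150335641031) (nat_lit 1070150335641031) (nat_lit 6) (nat_lit 0) (nat_lit 0) (nat_lit 0) ⟨false, (Z.p (nat_lit 0)), (Z.p (nat_lit 0)), (Z.p (nat_lit 0))⟩ (nat_lit 108263720292220) ⟨false, (Z.p (nat_lit 0)), (Z.p (nat_lit 0)), (Z.p (nat_lit 0))⟩ (nat_lit 150137626677557) :=
  Pool.Agent.C75W.M.CelM_pc cel r4 (fun _ _ _ _ h => absurd h (by decide))

end Pool.Agent.C75W.P10.PZ14c
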